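import Mathlib

namespace Pool.Agent.Results.MP_a1f67d_pr.Bernoulli
open MeasureTheory Filter Topology
open scoped RealInnerProductSpace ENNReal

/-- the shift `θ_n` on path space -/
def shift {E : Type} (n : ℕ) (y : ℕ → E) : ℕ → E := fun k => y (n + k)

/-- (S): setwise convergence of the law of `θ_n X` to the law of `X'` -/
def Setwise {E : Type} [MeasurableSpace E] (P P' : Measure (ℕ → E)) : Prop :=
  ∀ A, MeasurableSet A → Tendsto (fun n => P.real (shift n ⁻¹' A)) atTop (𝓝 (P'.real A))

/-- (TV): total variation convergence -/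
def TotalVar {E : Type} [MeasurableSpace E] (P P' : Measure (ℕ → E)) : Prop :=
  Tendsto (fun n => ⨆ A : {A : Set (ℕ → E) // MeasurableSet A},
    |P.real (shift n ⁻¹' A) - P'.real A|) atTop (𝓝 0)

noncomputable def coin : Measure Bool := (2⁻¹ : ℝ≥0∞) • (Measure.dirac true + Measure.dirac false)

instance : IsProbabilityMeasure coin := ⟨by simp [coin, ENNReal.inv_two_add_inv_two]⟩

noncomputable def pr : Measure (ℤ → Bool) := Measure.infinitePi fun _ => coin

instance : IsProbabilityMeasure pr := by unfold pr; infer_instance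

def C (i : ℤ) : Set (ℤ → Bool) := {ω | ω i = true}

lemma mC (i : ℤ) : MeasurableSet (C i) :=
  (measurable_pi_apply (X := fun _ : ℤ => Bool) i) (measurableSet_singleton true)

lemma coin_true : coin {true} = 2⁻¹ := by simp [coin]

lemma prC (i : ℤ) : pr.real (C i) = 1 / 2 := by
  have := Measure.infinitePi_pi (fun _ : ℤ => coin) (s := {i}) (t := fun _ => {true})
    fun _ _ => measurableSet_singleton _
  have e : C i = Set.pi (({i} : Finset ℤ) : Set ℤ) fun _ => {true} := by ext; simp [C]
  rw [Measure.real, pr, e, this]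
  simp [coin_true]

lemma prCC {i j : ℤ} (h : i ≠ j) : pr.real (C i ∩ C j) = 1 / 4 := by
  have := Measure.infinitePi_pi (fun _ : ℤ => coin) (s := {i, j}) (t := fun _ => {true})
    fun _ _ => measurableSet_singleton _
  have e : C i ∩ C j = Set.pi (({i, j} : Finset ℤ) : Set ℤ) fun _ => {true} := by
    ext; simp [C]
  rw [Measure.real, pr, e, this, Finset.prod_pair h]
  simp [coin_true]
  norm_num

noncomputable def ind {s : Set (ℤ → Bool)} (hs : MeasurableSet s) : Lp ℝ 2 pr :=
  indicatorConstLp 2 hs (measure_ne_top _ _) (1 : ℝ)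

lemma inner_ind {s t : Set (ℤ → Bool)} (hs : MeasurableSet s) (ht : MeasurableSet t) :
    ⟪ind hs, ind ht⟫ = pr.real (s ∩ t) :=
  L2.inner_indicatorConstLp_one_indicatorConstLp_one hs ht _ _

lemma mix {B : Set (ℤ → Bool)} (hB : MeasurableSet B) :
    Tendsto (fun n : ℕ => 2 * pr.real (C (-n) ∩ B)) atTop (𝓝 (pr.real B)) := by
  let r : ℕ → Lp ℝ 2 pr := fun n => (2 : ℝ) • ind (mC (-n)) - ind MeasurableSet.univ
  have hr : Orthonormal ℝ r := by
    rw [orthonormal_iff_ite]
    intro i j
    simp only [r, inner_sub_left, inner_sub_right, inner_smul_left, inner_smul_right, inner_ind,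
      conj_trivial, Set.inter_univ, Set.univ_inter, prC, probReal_univ]
    split_ifs with h
    · rw [h, Set.inter_self, prC]; norm_num
    · rw [prCC (by omega)]; norm_num
  have h1 := (hr.inner_products_summable (x := ind hB)).tendsto_atTop_zero
  have h2 : Tendsto (fun n => ⟪r n, ind hB⟫) atTop (𝓝 0) := by
    rw [tendsto_zero_iff_norm_tendsto_zero]
    simpa [Real.sqrt_sq_eq_abs] using h1.sqrt
  have h3 := h2.add_const (pr.real B)
  simpa [r, inner_sub_left, inner_smul_left, inner_ind] using h3

def T (n : ℕ) (ω : ℤ → Bool) : ℤ → Bool := fun i => ω (i + n)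

def path (ω : ℤ → Bool) : ℕ → ℤ → Bool := fun k => T k ω

lemma mT (n : ℕ) : Measurable (T n) := by unfold T; fun_prop

lemma mpath : Measurable path := measurable_pi_lambda _ mT

lemma map_T (n : ℕ) : pr.map (T n) = pr :=
  Measure.map_infinitePi_infinitePi_of_inj (P := fun _ : ℤ => coin) (f := fun i : ℤ => i + n)
    (add_left_injective _)

noncomputable def P0 : Measure (ℕ → ℤ → Bool) := ((2 : ℝ≥0∞) • pr.restrict (C 0)).map path

lemma P0_eq (n : ℕ) {A : Set (ℕ → ℤ → Bool)} (hA : MeasurableSet A) :
    P0.real (shift n ⁻¹' A) = 2 * pr.real (C (-n) ∩ path ⁻¹' A) := by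
  have hs : Measurable (shift (E := ℤ → Bool) n) := by unfold shift; fun_prop
  have e : path ⁻¹' (shift n ⁻¹' A) ∩ C 0 = T n ⁻¹' (C (-n) ∩ path ⁻¹' A) := by
    ext ω
    have : shift n (path ω) = path (T n ω) := by
      funext k i
      simp only [shift, path, T]
      congr 1
      push_cast
      ring
    simp [this, C, T, and_comm]
  rw [Measure.real, P0, Measure.map_apply mpath (hs hA), Measure.smul_apply,
    Measure.restrict_apply (mpath (hs hA)), e, ← Measure.map_apply (mT n) ((mC _).inter (mpath hA)),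
    map_T]
  simp [Measure.real]

theorem result : ¬ ∀ (E : Type) [MeasurableSpace E] (P P' : Measure (ℕ → E))
    [IsProbabilityMeasure P] [IsProbabilityMeasure P'], Setwise P P' → TotalVar P P' := by
  intro h
  have i1 : IsProbabilityMeasure P0 := ⟨by
    have h1 := P0_eq 0 MeasurableSet.univ
    simp only [Set.preimage_univ, Set.inter_univ, prC] at h1
    rw [← ENNReal.toReal_eq_one_iff]
    exact h1.trans (by norm_num)⟩
  have i2 : IsProbabilityMeasure (pr.map path) := Measure.isProbabilityMeasure_map mpath.aemeasurable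
  have h1 := h _ P0 (pr.map path) fun A hA => by
    simp only [P0_eq _ hA, map_measureReal_apply mpath hA]
    exact mix (mpath hA)
  have h2 : ∀ n : ℕ, 1 / 2 ≤ ⨆ A : {A : Set (ℕ → ℤ → Bool) // MeasurableSet A},
      |P0.real (shift n ⁻¹' A) - (pr.map path).real A| := by
    intro n
    have hA : MeasurableSet {y : ℕ → ℤ → Bool | y 0 ∈ C (-n)} := measurable_pi_apply 0 (mC _)
    refine le_trans ?_ (le_ciSup ⟨1, ?_⟩ ⟨_, hA⟩)
    · have e : path ⁻¹' {y : ℕ → ℤ → Bool | y 0 ∈ C (-n)} = C (-n) := by
        ext ω; simp [path, T, C]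
      simp only [P0_eq _ hA, map_measureReal_apply mpath hA, e, Set.inter_self, prC]
      norm_num
    · rintro _ ⟨A, rfl⟩
      have a1 := measureReal_le_one (μ := P0) (s := shift n ⁻¹' A)
      have a2 := measureReal_le_one (μ := pr.map path) (s := A)
      have a3 := measureReal_nonneg (μ := P0) (s := shift n ⁻¹' A)
      have a4 := measureReal_nonneg (μ := pr.map path) (s := A)
      simp only
      rw [abs_le]
      constructor <;> linarith
  have := ge_of_tendsto' h1 h2
  norm_num at this

end Pool.Agent.Results.MP_a1f67d_pr.Bernoulli
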